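import Pool.Agent.TH133.PW.Ev

/-!
# MP_fd35e1_ag: the even Kunneth projector, pairs of classes and coefficients

Let `W` be a Weil cohomology theory (for instance crystalline cohomology) with coefficient field `K`
and let `X` be a variety of dimension `n`. The following are equivalent.

1. `C⁺(X)`: the projector onto the even cohomology of `X` is induced by an algebraic cycle with
   rational coefficients.
2. This projector is a combination with coefficients in `K` of operators induced by algebraic
   cycles of codimension `n` on `X × X`.
3. For every pair of classes `y ∈ H ^ i(X)`, `y' ∈ H ^ j(X)`, `i` even and `j` odd, there is a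
   combination `φ` with coefficients in `K` of such operators, which may depend on `y` and `y'`, with
   `φ(y) = y` and `φ(y') = 0`.
4. Whenever a class `y × w + y' × w'` on `X × X` with `y`, `w` of even degrees `i`, `2 n - i` and
   `y'`, `w'` of odd degrees `j`, `2 n - j` is orthogonal to all algebraic cycles, `tr(y w) = 0`.
5. Every subspace of `H(X)` stable under the algebraic correspondences of degree zero contains the
   even parts of its elements.
-/

open CategoryTheory AlgebraicGeometry

universe u v

namespace Pool.Agent.Results.MP_fd35e1_ag.SeparateParities

open Pool.Agent.H914 Pool.Agent.H914.VarClass Pool.Agent.TH133.PW Pool.Agent.H447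

/-- **`C⁺(X)` holds if and only if the pairs formed by a class of even and a class of odd degree can
be separated by combinations of algebraic correspondences with coefficients in `K`.** -/
theorem result {k : Type u} [Field k] {𝒱 : VarClass k} {ops : CycleOps 𝒱}
    (W : WeilCohomology.{u, v} ops) (X : 𝒱.Obj) :
    [SignStd W X, EvenProjInSpan (W.gr X) (cycleOperators W X X.dim),
      SeparatesParity (W.gr X) (cycleOperators W X X.dim), DetectsParity W X,
      StableParity (W.gr X) (cycleOperators W X X.dim)].TFAE :=
  sign_tfae W X

end Pool.Agent.Results.MP_fd35e1_ag.SeparateParities
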